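import Mathlib

namespace Pool.Agent.Results.MP_674d90_lc.SafetySeparation

/-- An arena over the colours `C`; `P` is the set of Protagonist nodes, all other nodes belong
to Antagonist. -/
structure Arena (C : Type) where
  V : Type
  finite : Finite V
  nonempty : Nonempty V
  P : Set V
  E : Set (V × C × V)
  total : ∀ v, ∃ e ∈ E, e.1 = v

variable {C : Type}

/-- `l` is a finite path from `u` to `v`. -/
def IsPath (A : Arena C) : A.V → List (A.V × C × A.V) → A.V → Prop
  | u, [], v => u = v
  | u, e :: l, v => e ∈ A.E ∧ e.1 = u ∧ IsPath A e.2.2 l v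

/-- A Protagonist strategy: a path is given by its first node and its list of edges. -/
structure Strategy (A : Arena C) where
  move : A.V → List (A.V × C × A.V) → A.V × C × A.V
  legal : ∀ u l v, IsPath A u l v → v ∈ A.P → move u l ∈ A.E ∧ (move u l).1 = v

/-- `e` is an infinite play from `u` consistent with `S`. -/
def IsPlay {A : Arena C} (S : Strategy A) (u : A.V) (e : ℕ → A.V × C × A.V) : Prop :=
  (∀ n, e n ∈ A.E) ∧ (e 0).1 = u ∧ (∀ n, (e n).2.2 = (e (n + 1)).1) ∧
    ∀ n, (e n).1 ∈ A.P → e n = S.move u ((List.range n).map e)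

def WinsFrom {A : Arena C} (W : Set (ℕ → C)) (S : Strategy A) (u : A.V) : Prop :=
  ∀ e, IsPlay S u e → (fun n => (e n).2.1) ∈ W

def Optimal {A : Arena C} (W : Set (ℕ → C)) (S : Strategy A) : Prop :=
  ∀ u, (∃ S' : Strategy A, WinsFrom W S' u) → WinsFrom W S u

/-- `S` is built on the memory structure `(Fin k, m₀, δ)`. -/
def BuiltOn {A : Arena C} (S : Strategy A) {k : ℕ} (m₀ : Fin k)
    (δ : Fin k → A.V × C × A.V → Fin k) : Prop :=
  ∀ u₁ l₁ u₂ l₂ v, IsPath A u₁ l₁ v → IsPath A u₂ l₂ v → v ∈ A.P →
    l₁.foldl δ m₀ = l₂.foldl δ m₀ → S.move u₁ l₁ = S.move u₂ l₂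

def Chromatic {A : Arena C} {k : ℕ} (δ : Fin k → A.V × C × A.V → Fin k) : Prop :=
  ∀ m, ∀ e ∈ A.E, ∀ e' ∈ A.E, e.2.1 = e'.2.1 → δ m e = δ m e'

/-- In every arena some optimal strategy is built on a memory structure with `k` states. -/
def GenSuffices (W : Set (ℕ → C)) (k : ℕ) : Prop :=
  ∀ A : Arena C, ∃ (S : Strategy A) (m₀ : Fin k) (δ : Fin k → A.V × C × A.V → Fin k),
    Optimal W S ∧ BuiltOn S m₀ δ

/-- The same with chromatic memory structures. -/
def ChrSuffices (W : Set (ℕ → C)) (k : ℕ) : Prop :=
  ∀ A : Arena C, ∃ (S : Strategy A) (m₀ : Fin k) (δ : Fin k → A.V × C × A.V → Fin k),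
    Optimal W S ∧ BuiltOn S m₀ δ ∧ Chromatic δ

/-! ### paths and plays -/

lemma path_snoc {A : Arena C} {l : List (A.V × C × A.V)} : ∀ {u v : A.V} {e},
    IsPath A u l v → e ∈ A.E → e.1 = v → IsPath A u (l ++ [e]) e.2.2 := by
  induction l with
  | nil => intro u v e h he h1; exact ⟨he, h1.trans h.symm, rfl⟩
  | cons f l ih => intro u v e h he h1; exact ⟨h.1, h.2.1, ih h.2.2 he h1⟩

lemma play_path {A : Arena C} {S : Strategy A} {u e} (h : IsPlay S u e) (n : ℕ) :
    IsPath A u ((List.range n).map e) (e n).1 := by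
  induction n with
  | zero => exact h.2.1.symm
  | succ n ih =>
    rw [List.range_succ, List.map_append, ← h.2.2.1 n]
    exact path_snoc ih (h.1 n) rfl

lemma exists_play {A : Arena C} (S : Strategy A) (u : A.V) : ∃ e, IsPlay S u e := by
  classical
  choose o ho1 ho2 using A.total
  let nx : List (A.V × C × A.V) × A.V → A.V × C × A.V :=
    fun p => if p.2 ∈ A.P then S.move u p.1 else o p.2
  obtain ⟨D, h0, hs⟩ : ∃ D : ℕ → List (A.V × C × A.V) × A.V, D 0 = ([], u) ∧
      ∀ n, D (n + 1) = ((D n).1 ++ [nx (D n)], (nx (D n)).2.2) :=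
    ⟨fun n => Nat.rec ([], u) (fun _ p => (p.1 ++ [nx p], (nx p).2.2)) n, rfl, fun _ => rfl⟩
  have key : ∀ p : List (A.V × C × A.V) × A.V, IsPath A u p.1 p.2 →
      nx p ∈ A.E ∧ (nx p).1 = p.2 := by
    intro p hp
    by_cases h : p.2 ∈ A.P
    · simp only [nx, if_pos h]; exact S.legal _ _ _ hp h
    · simp only [nx, if_neg h]; exact ⟨ho1 _, ho2 _⟩
  have hp : ∀ n, IsPath A u (D n).1 (D n).2 := by
    intro n
    induction n with
    | zero => rw [h0]; exact rfl
    | succ n ih => rw [hs]; exact path_snoc ih (key _ ih).1 (key _ ih).2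
  have hl : ∀ n, (List.range n).map (fun n => nx (D n)) = (D n).1 := by
    intro n
    induction n with
    | zero => rw [h0]; rfl
    | succ n ih => rw [List.range_succ, List.map_append, ih, hs]; rfl
  refine ⟨fun n => nx (D n), fun n => (key _ (hp n)).1, ?_, fun n => ?_, fun n hn => ?_⟩
  · show (nx (D 0)).1 = u
    rw [(key _ (hp 0)).2, h0]
  · show (nx (D n)).2.2 = (nx (D (n + 1))).1
    rw [(key _ (hp (n + 1))).2, hs]
  · rw [hl]
    have : (D n).2 ∈ A.P := by rw [← (key _ (hp n)).2]; exact hn
    simp only [nx, if_pos this]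

/-! ### the automaton -/

abbrev St := Option (ℕ × Bool)

def step : St → Fin 4 → St
  | none, _ => none
  | some (n, i), c =>
    if c = 0 then some (n + 1, i)
    else if c = 1 then (if n = 0 then none else some (n - 1, i))
    else if c = 2 then (if n = 0 then some (0, !i) else some (n, i))
    else (if n = 0 ∧ i = true then none else some (n, i))

def run (q : St) (w : ℕ → Fin 4) (n : ℕ) : St := ((List.range n).map w).foldl step q

lemma run_succ (q w n) : run q w (n + 1) = step (run q w n) (w n) := by
  simp [run, List.range_succ]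

lemma run_shift (q w n) : run q w (n + 1) = run (step q (w 0)) (fun n => w (n + 1)) n := by
  simp [run, List.range_succ_eq_map, List.map_map, Function.comp_def]

def Wq (q : St) : Set (ℕ → Fin 4) := {w | ∀ n, run q w n ≠ none}

def Le : St → St → Prop
  | none, _ => True
  | some _, none => False
  | some p, some p' => p = p' ∨ p.1 < p'.1

lemma Le.refl (q : St) : Le q q := by cases q <;> simp [Le]

lemma Le.trans {p q r : St} (h1 : Le p q) (h2 : Le q r) : Le p r := by
  rcases p with _ | p
  · trivial
  rcases q with _ | q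
  · exact h1.elim
  rcases r with _ | r
  · exact h2.elim
  rcases h1 with rfl | h1
  · exact h2
  rcases h2 with rfl | h2
  · exact Or.inr h1
  · exact Or.inr (h1.trans h2)

lemma Le.step {p q : St} (h : Le p q) (c : Fin 4) : Le (step p c) (step q c) := by
  rcases p with _ | ⟨n, i⟩
  · trivial
  rcases q with _ | ⟨m, j⟩
  · exact h.elim
  rcases h with h | h
  · rw [h]; exact Le.refl _
  simp only at h
  have hm : m ≠ 0 := by omega
  simp only [SafetySeparation.step, hm, false_and, if_false]
  split_ifs <;> simp only [Le] <;> first | trivial | (right; omega)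

lemma closed : IsClosed (Wq (some (0, false))) := by
  have : Wq (some (0, false)) = ⋂ n, {w | run (some (0, false)) w n ≠ none} := by
    ext w; simp [Wq]
  rw [this]
  refine isClosed_iInter fun n => ?_
  have : {w : ℕ → Fin 4 | run (some (0, false)) w n ≠ none} =
      (fun w (i : Fin n) => w i) ⁻¹'
        {x : Fin n → Fin 4 | (List.ofFn x).foldl step (some (0, false)) ≠ none} := by
    ext w
    simp only [run, Set.mem_setOf_eq, Set.mem_preimage]
    have : List.ofFn (fun i : Fin n => w i) = (List.range n).map w := by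
      apply List.ext_getElem <;> simp
    rw [this]
  rw [this]
  exact (isClosed_discrete _).preimage (continuous_pi fun i => continuous_apply _)

/-! ### two states of general memory suffice -/

def Win (A : Arena (Fin 4)) (v : A.V) (q : St) : Prop := ∃ S : Strategy A, WinsFrom (Wq q) S v

lemma Win.ne {A : Arena (Fin 4)} {v : A.V} {q : St} (h : Win A v q) : q ≠ none := by
  obtain ⟨S, hS⟩ := h
  obtain ⟨e, he⟩ := exists_play S v
  exact hS e he 0

lemma win_step {A : Arena (Fin 4)} {v : A.V} {q : St} {S : Strategy A}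
    (hS : WinsFrom (Wq q) S v) {f} (hf : f ∈ A.E) (h1 : f.1 = v)
    (h2 : v ∈ A.P → f = S.move v []) : Win A f.2.2 (step q f.2.1) := by
  classical
  refine ⟨⟨fun u l => if u = f.2.2 then S.move v (f :: l) else S.move u l, ?_⟩, ?_⟩
  · intro u l w hp hw
    by_cases h : u = f.2.2
    · simp only [if_pos h]
      exact S.legal v (f :: l) w ⟨hf, h1, h ▸ hp⟩ hw
    · simp only [if_neg h]
      exact S.legal u l w hp hw
  · intro e he n
    have := hS (fun n => Nat.casesOn n f e) ⟨?_, h1, ?_, ?_⟩ (n + 1)
    · rw [run_shift] at this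
      exact this
    · rintro (_ | n)
      · exact hf
      · exact he.1 n
    · rintro (_ | n)
      · exact he.2.1.symm
      · exact he.2.2.1 n
    · rintro (_ | n) hn
      · exact h2 (h1 ▸ hn)
      · have := he.2.2.2 n hn
        simp only [if_true] at this
        rw [List.range_succ_eq_map, List.map_cons, List.map_map]
        exact this

lemma exists_mu (A : Arena (Fin 4)) : ∃ μ : A.V → Bool → St, ∀ v n i, Win A v (some (n, i)) →
    Win A v (μ v i) ∧ Le (μ v i) (some (n, i)) := by
  classical
  have : ∀ v i, ∃ q : St, ∀ n, Win A v (some (n, i)) → Win A v q ∧ Le q (some (n, i)) := by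
    intro v i
    by_cases h : ∃ n, Win A v (some (n, i))
    · refine ⟨some (Nat.find h, i), fun n hn => ⟨Nat.find_spec h, ?_⟩⟩
      rcases (Nat.find_min' h hn).eq_or_lt with h1 | h1
      · exact Or.inl (by rw [h1])
      · exact Or.inr h1
    · exact ⟨none, fun n hn => (h ⟨n, hn⟩).elim⟩
  choose μ hμ using this
  exact ⟨μ, fun v n i h => hμ v i n h⟩

def bit : St → Bool
  | none => false
  | some p => p.2

lemma gen : GenSuffices (Wq (some (0, false))) 2 := by
  classical
  intro A
  obtain ⟨μ, hμ⟩ := exists_mu A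
  have hμ' : ∀ v q, Win A v q → Win A v (μ v (bit q)) ∧ Le (μ v (bit q)) q := by
    intro v q h
    rcases q with _ | ⟨n, i⟩
    · exact (h.ne rfl).elim
    · exact hμ v n i h
  have hmove : ∀ v q, ∃ f ∈ A.E, f.1 = v ∧
      (v ∈ A.P → Win A v q → Win A f.2.2 (step q f.2.1)) := by
    intro v q
    by_cases h : v ∈ A.P ∧ Win A v q
    · obtain ⟨hv, S, hS⟩ := h
      have := S.legal v [] v rfl hv
      exact ⟨_, this.1, this.2, fun _ _ => win_step hS this.1 this.2 fun _ => rfl⟩
    · obtain ⟨f, hf, h1⟩ := A.total v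
      exact ⟨f, hf, h1, fun h2 h3 => (h ⟨h2, h3⟩).elim⟩
  choose σ hσ1 hσ2 hσ3 using hmove
  let enc : Bool → Fin 2 := fun b => if b then 1 else 0
  let dec : Fin 2 → Bool := fun m => decide (m = 1)
  have hde : ∀ b, dec (enc b) = b := by decide
  let δ : Fin 2 → A.V × Fin 4 × A.V → Fin 2 :=
    fun m e => enc (bit (step (μ e.1 (dec m)) e.2.1))
  let last : A.V → List (A.V × Fin 4 × A.V) → A.V := fun u l => l.foldl (fun _ e => e.2.2) u
  have hlast : ∀ l u v, IsPath A u l v → last u l = v := by
    intro l
    induction l with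
    | nil => intro u v h; exact h
    | cons e l ih => intro u v h; exact ih _ _ h.2.2
  refine ⟨⟨fun u l => σ (last u l) (μ (last u l) (dec (l.foldl δ 0))), ?_⟩, 0, δ, ?_, ?_⟩
  · intro u l v hp _
    exact ⟨hσ1 _ _, by rw [hσ2, hlast _ _ _ hp]⟩
  · intro u hu e he
    have inv : ∀ n, Win A (e n).1 (μ (e n).1 (dec (((List.range n).map e).foldl δ 0))) ∧
        Le (μ (e n).1 (dec (((List.range n).map e).foldl δ 0)))
          (run (some (0, false)) (fun n => (e n).2.1) n) := by
      intro n
      induction n with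
      | zero =>
        have := hμ u 0 false hu
        rw [he.2.1]
        exact this
      | succ n ih =>
        have hw : Win A (e n).2.2
            (step (μ (e n).1 (dec (((List.range n).map e).foldl δ 0))) (e n).2.1) := by
          by_cases hP : (e n).1 ∈ A.P
          · have h1 := he.2.2.2 n hP
            simp only [hlast _ _ _ (play_path he n)] at h1
            have h2 := hσ3 _ _ hP ih.1
            rw [← h1] at h2
            exact h2
          · obtain ⟨S, hS⟩ := ih.1
            exact win_step hS (he.1 n) rfl fun h => (hP h).elim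
        have h3 := hμ' _ _ hw
        rw [List.range_succ, List.map_append, List.foldl_append, run_succ, ← he.2.2.1 n]
        simp only [List.map_cons, List.map_nil, List.foldl_cons, List.foldl_nil, δ, hde]
        exact ⟨h3.1, h3.2.trans (ih.2.step _)⟩
    intro n hn
    have h1 := (inv n).2
    have h2 := (inv n).1.ne
    rw [hn] at h1
    revert h1 h2
    rcases μ (e n).1 (dec (((List.range n).map e).foldl δ 0)) with _ | p
    · intro _ h; exact h rfl
    · intro h; exact h.elim
  · intro u₁ l₁ u₂ l₂ v h1 h2 _ h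
    simp only [hlast _ _ _ h1, hlast _ _ _ h2, h]

/-! ### no finite chromatic memory suffices -/

lemma idem (k : ℕ) : ∃ x > 0, ∀ f : Fin k → Fin k, f^[x + x] = f^[x] := by
  have h1 : ∀ f : Fin k → Fin k, ∃ n > 0, ∀ r, f^[n + r * n] = f^[n] := by
    intro f
    obtain ⟨i, j, hij, h⟩ : ∃ i j, i < j ∧ f^[i] = f^[j] := by
      obtain ⟨i, j, hne, h⟩ := Finite.exists_ne_map_eq_of_infinite (fun n : ℕ => f^[n])
      rcases lt_or_gt_of_ne hne with h1 | h1
      · exact ⟨i, j, h1, h⟩
      · exact ⟨j, i, h1, h.symm⟩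
    obtain ⟨d, rfl⟩ := Nat.exists_eq_add_of_lt hij
    have h2 : ∀ t r, f^[t + i + r * (d + 1)] = f^[t + i] := by
      intro t r
      induction r with
      | zero => simp
      | succ r ih =>
        have : t + i + (r + 1) * (d + 1) = (t + r * (d + 1)) + (i + d + 1) := by ring
        rw [this, Function.iterate_add, ← h, ← Function.iterate_add, ← ih]
        congr 1; ring
    refine ⟨(i + 1) * (d + 1), by positivity, fun r => ?_⟩
    have := h2 ((i + 1) * d + 1) (r * (i + 1))
    convert this using 2 <;> ring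
  choose n hn0 hn using h1
  refine ⟨∏ f, n f, Finset.prod_pos fun f _ => hn0 f, fun f => ?_⟩
  obtain ⟨m, hm⟩ : n f ∣ ∏ f, n f := Finset.dvd_prod_of_mem _ (Finset.mem_univ f)
  have hm0 : m ≠ 0 := by
    rintro rfl
    have : 0 < ∏ f, n f := Finset.prod_pos fun f _ => hn0 f
    omega
  obtain ⟨m, rfl⟩ := Nat.exists_eq_succ_of_ne_zero hm0
  rw [hm]
  have e1 : n f * m.succ + n f * m.succ = n f + (2 * m + 1) * n f := by
    simp only [Nat.succ_eq_add_one]; ring
  have e2 : n f * m.succ = n f + m * n f := by simp only [Nat.succ_eq_add_one]; ring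
  rw [e1, e2, hn, hn]

inductive Edge : List (Fin 4) ⊕ Bool → Fin 4 → List (Fin 4) ⊕ Bool → Prop
  | cons (c l) : Edge (.inl (c :: l)) c (.inl l)
  | t : Edge (.inl []) 3 (.inr true)
  | s : Edge (.inl []) 2 (.inr false)
  | t' : Edge (.inr false) 3 (.inr true)
  | a : Edge (.inr true) 0 (.inr true)

def Good (u v : List (Fin 4)) : List (Fin 4) ⊕ Bool → Prop
  | .inl l => l <:+ u ∨ l <:+ v
  | .inr _ => True

def ar (u v : List (Fin 4)) : Arena (Fin 4) where
  V := {x // Good u v x}
  finite := by
    have : {x | Good u v x}.Finite := by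
      refine ((((u.tails ++ v.tails).finite_toSet).image Sum.inl).union
        (Set.toFinite (Set.range Sum.inr))).subset ?_
      rintro (l | b) h
      · exact Or.inl ⟨l, by simpa [Good] using h, rfl⟩
      · exact Or.inr ⟨b, rfl⟩
    exact this
  nonempty := ⟨⟨.inr true, trivial⟩⟩
  P := Set.univ
  E := {e | Edge e.1.1 e.2.1 e.2.2.1}
  total := by
    rintro ⟨(_ | ⟨c, l⟩) | (_ | _), h⟩
    · exact ⟨(⟨_, h⟩, 3, ⟨.inr true, trivial⟩), Edge.t, rfl⟩
    · refine ⟨(⟨_, h⟩, c, ⟨.inl l, ?_⟩), Edge.cons c l, rfl⟩
      exact h.imp (List.suffix_cons c l).trans (List.suffix_cons c l).trans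
    · exact ⟨(⟨_, h⟩, 3, ⟨.inr true, trivial⟩), Edge.t', rfl⟩
    · exact ⟨(⟨_, h⟩, 0, ⟨.inr true, trivial⟩), Edge.a, rfl⟩

lemma foldl_none (l : List (Fin 4)) : l.foldl step none = none := by
  induction l with
  | nil => rfl
  | cons c l ih => exact ih

lemma ar_win (u v : List (Fin 4)) (l) (hl : Good u v (.inl l)) (i : Bool)
    (h : l.foldl step (some (0, false)) = some (0, i)) :
    Win (ar u v) ⟨.inl l, hl⟩ (some (0, false)) := by
  classical
  have hσ : ∀ x : (ar u v).V, ∃ f ∈ (ar u v).E, f.1 = x ∧
      (x.1 = .inl [] → f.2.1 = if i then 2 else 3) := by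
    intro x
    by_cases hx : x.1 = .inl []
    · obtain ⟨x, hx'⟩ := x
      simp only at hx
      subst hx
      cases i
      · exact ⟨(⟨_, hx'⟩, 3, ⟨.inr true, trivial⟩), Edge.t, rfl, fun _ => rfl⟩
      · exact ⟨(⟨_, hx'⟩, 2, ⟨.inr false, trivial⟩), Edge.s, rfl, fun _ => rfl⟩
    · obtain ⟨f, hf, h1⟩ := (ar u v).total x
      exact ⟨f, hf, h1, fun h => (hx h).elim⟩
  choose σ h1 h2 h3 using hσ
  let last : (ar u v).V → List ((ar u v).V × Fin 4 × (ar u v).V) → (ar u v).V :=
    fun u l => l.foldl (fun _ e => e.2.2) u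
  have hlast : ∀ l x y, IsPath (ar u v) x l y → last x l = y := by
    intro l
    induction l with
    | nil => intro u v h; exact h
    | cons e l ih => intro u v h; exact ih _ _ h.2.2
  refine ⟨⟨fun x p => σ (last x p), fun x p y hp _ => ⟨h1 _, by rw [h2, hlast _ _ _ hp]⟩⟩, ?_⟩
  intro e he
  let Inv : List (Fin 4) ⊕ Bool → St → Prop := fun x q =>
    match x with
    | .inl l => l.foldl step q = some (0, i)
    | .inr false => q = some (0, false)
    | .inr true => ∃ n, q = some (n, false)
  have inv : ∀ n, Inv (e n).1.1 (run (some (0, false)) (fun n => (e n).2.1) n) := by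
    intro n
    induction n with
    | zero => rw [he.2.1]; exact h
    | succ n ih =>
      rw [run_succ, ← he.2.2.1 n]
      have h4 := he.2.2.2 n trivial
      simp only [hlast _ _ _ (play_path he n)] at h4
      have h5 := h3 (e n).1
      rw [← h4] at h5
      have h6 : Edge (e n).1.1 (e n).2.1 (e n).2.2.1 := he.1 n
      generalize run (some (0, false)) (fun n => (e n).2.1) n = q at ih ⊢
      generalize (e n).1.1 = x at ih h5 h6
      generalize (e n).2.1 = c at ih h5 h6 ⊢
      generalize (e n).2.2.1 = y at ih h5 h6 ⊢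
      cases h6 with
      | cons c l => exact ih
      | t =>
        have := h5 rfl
        cases i
        · exact ⟨0, by rw [show q = some (0, false) from ih]; rfl⟩
        · simp at this
      | s =>
        have := h5 rfl
        cases i
        · simp at this
        · show step q 2 = _
          rw [show q = some (0, true) from ih]; rfl
      | t' => exact ⟨0, by rw [show q = some (0, false) from ih]; rfl⟩
      | a =>
        obtain ⟨n, rfl⟩ := ih
        exact ⟨n + 1, rfl⟩
  intro n hn
  have := inv n
  rw [hn] at this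
  revert this
  rcases (e n).1.1 with l | (_ | _)
  · intro h; simp only [Inv, foldl_none] at h; cases h
  · intro h; cases h
  · rintro ⟨_, h⟩; cases h

lemma ar_follow {u v : List (Fin 4)} {S : Strategy (ar u v)} {l hl e}
    (he : IsPlay S ⟨.inl l, hl⟩ e) (n : ℕ) (hn : n ≤ l.length) :
    (e n).1.1 = .inl (l.drop n) ∧ (List.range n).map (fun n => (e n).2.1) = l.take n := by
  induction n with
  | zero => rw [he.2.1]; simp
  | succ n ih =>
    obtain ⟨h1, h2⟩ := ih (by omega)
    have h6 : Edge (e n).1.1 (e n).2.1 (e n).2.2.1 := he.1 n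
    rw [h1, List.drop_eq_getElem_cons (by omega : n < l.length)] at h6
    rw [← he.2.2.1 n, List.range_succ, List.map_append, h2,
      List.take_succ_eq_append_getElem (by omega : n < l.length)]
    simp only [List.map_cons, List.map_nil]
    generalize (e n).2.1 = c at h6 ⊢
    generalize (e n).2.2.1 = y at h6 ⊢
    cases h6
    exact ⟨rfl, rfl⟩

lemma step_a (x n : ℕ) (i : Bool) :
    (List.replicate x 0).foldl step (some (n, i)) = some (n + x, i) := by
  induction x generalizing n with
  | zero => rfl
  | succ x ih =>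
    rw [List.replicate_succ, List.foldl_cons]
    have : step (some (n, i)) 0 = some (n + 1, i) := rfl
    rw [this, ih]; congr 2; omega

lemma step_b (x n : ℕ) (i : Bool) :
    (List.replicate x 1).foldl step (some (n + x, i)) = some (n, i) := by
  induction x with
  | zero => rfl
  | succ x ih =>
    rw [List.replicate_succ, List.foldl_cons]
    have : step (some (n + (x + 1), i)) 1 = some (n + x, i) := by simp [step]
    rw [this, ih]

lemma foldl_rep {M : Type} (g : M → Fin 4 → M) (c : Fin 4) (x : ℕ) (m : M) :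
    (List.replicate x c).foldl g m = (fun m => g m c)^[x] m := by
  induction x generalizing m with
  | zero => rfl
  | succ x ih => rw [List.replicate_succ, List.foldl_cons, ih]; rfl

lemma not_chr (k : ℕ) : ¬ ChrSuffices (Wq (some (0, false))) k := by
  classical
  intro h
  obtain ⟨x, hx0, hx⟩ := idem k
  let u : List (Fin 4) := List.replicate (x + x) 0 ++ List.replicate x 1 ++ [2] ++
    List.replicate x 0 ++ List.replicate (x + x) 1
  let v : List (Fin 4) := List.replicate x 0 ++ List.replicate x 1 ++ [2] ++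
    List.replicate x 0 ++ List.replicate x 1
  have hu : u.foldl step (some (0, false)) = some (0, false) := by
    simp only [u, List.foldl_append, step_a, zero_add, step_b, List.foldl_cons, List.foldl_nil]
    have : step (some (x, false)) 2 = some (x, false) := by simp [step, hx0.ne']
    rw [this, step_a]
    simpa using step_b (x + x) 0 false
  have hv : v.foldl step (some (0, false)) = some (0, true) := by
    simp only [v, List.foldl_append, step_a, step_b, List.foldl_cons, List.foldl_nil]
    have : step (some (0, false)) 2 = some (0, true) := rfl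
    rw [this, step_a, step_b]
  have huv : ∀ (g : Fin k → Fin 4 → Fin k) m, u.foldl g m = v.foldl g m := by
    intro g m
    simp only [u, v, List.foldl_append, foldl_rep, hx]
  obtain ⟨S, m₀, δ, hopt, hb, hc⟩ := h (ar u v)
  have gu : Good u v (.inl u) := Or.inl (List.suffix_refl _)
  have gv : Good u v (.inl v) := Or.inr (List.suffix_refl _)
  have wu := hopt _ (ar_win u v u gu false hu)
  have wv := hopt _ (ar_win u v v gv true hv)
  obtain ⟨e, he⟩ := exists_play S ⟨.inl u, gu⟩
  obtain ⟨e', he'⟩ := exists_play S ⟨.inl v, gv⟩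
  obtain ⟨g, hg⟩ : ∃ g : Fin k → Fin 4 → Fin k, ∀ m, ∀ f ∈ (ar u v).E, δ m f = g m f.2.1 := by
    refine ⟨fun m c => if h : ∃ f ∈ (ar u v).E, f.2.1 = c then δ m h.choose else m, ?_⟩
    intro m f hf
    have h : ∃ f' ∈ (ar u v).E, f'.2.1 = f.2.1 := ⟨f, hf, rfl⟩
    simp only [dif_pos h]
    exact hc m _ hf _ h.choose_spec.1 h.choose_spec.2.symm
  have hfold : ∀ (e : ℕ → (ar u v).V × Fin 4 × (ar u v).V), (∀ n, e n ∈ (ar u v).E) → ∀ n,
      ((List.range n).map e).foldl δ m₀ =
        ((List.range n).map (fun n => (e n).2.1)).foldl g m₀ := by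
    intro e he n
    induction n with
    | zero => rfl
    | succ n ih => simp only [List.range_succ, List.map_append, List.foldl_append, ih,
        List.map_cons, List.map_nil, List.foldl_cons, List.foldl_nil, hg _ _ (he n)]
  obtain ⟨a1, a2⟩ := ar_follow he u.length le_rfl
  obtain ⟨b1, b2⟩ := ar_follow he' v.length le_rfl
  rw [List.drop_length] at a1 b1
  rw [List.take_length] at a2 b2
  have hee : (e u.length).1 = (e' v.length).1 := Subtype.ext (a1.trans b1.symm)
  have hmove : e u.length = e' v.length := by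
    rw [he.2.2.2 _ trivial, he'.2.2.2 _ trivial]
    refine hb _ _ _ _ _ (play_path he _) (hee ▸ play_path he' _) trivial ?_
    rw [hfold e he.1, hfold e' he'.1, a2, b2, huv]
  have r1 : run (some (0, false)) (fun n => (e n).2.1) u.length = some (0, false) := by
    rw [run, a2, hu]
  have r2 : run (some (0, false)) (fun n => (e' n).2.1) v.length = some (0, true) := by
    rw [run, b2, hv]
  have h6 : Edge (e u.length).1.1 (e u.length).2.1 (e u.length).2.2.1 := he.1 _
  have h7 : Edge (e (u.length + 1)).1.1 (e (u.length + 1)).2.1 (e (u.length + 1)).2.2.1 :=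
    he.1 _
  have w1 := wu e he (u.length + 1 + 1)
  have w2 := wv e' he' (v.length + 1)
  rw [run_succ, run_succ, r1] at w1
  rw [run_succ, r2, ← hmove] at w2
  rw [a1] at h6
  rw [← he.2.2.1] at h7
  generalize (e u.length).2.1 = c at h6 w1 w2
  generalize (e u.length).2.2.1 = y at h6 h7
  generalize (e (u.length + 1)).2.1 = c' at h7 w1
  generalize (e (u.length + 1)).2.2.1 = y' at h7
  cases h6
  · exact w2 rfl
  · cases h7
    exact w1 rfl

theorem result : ∃ W : Set (ℕ → Fin 4), IsClosed W ∧ GenSuffices W 2 ∧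
    ∀ k, ¬ ChrSuffices W k :=
  ⟨_, closed, gen, not_chr⟩

end Pool.Agent.Results.MP_674d90_lc.SafetySeparation
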